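import Pool.Agent.MWV.Stmts

/-! # Row CTX of squad MWV (helper39) -/

set_option autoImplicit false

namespace Pool.Agent.MWV.H39

open Pool.Agent.MWV

theorem flatMap_update (S L : ℕ → List ℕ) (i : ℕ) (A : List ℕ) {l : List ℕ} (h : i ∉ l) :
    l.flatMap (fun j => Function.update S i A j ++ L j) = l.flatMap (fun j => S j ++ L j) := by
  induction l with
  | nil => rfl
  | cons a l ih =>
    rw [List.flatMap_cons, List.flatMap_cons, ih (fun hm => h (List.mem_cons_of_mem _ hm)),
      Function.update_of_ne (fun he : a = i => h (by rw [he]; exact List.mem_cons_self))]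

theorem flatMap_update' (S L : ℕ → List ℕ) (i : ℕ) (A : List ℕ) {l : List ℕ} (h : i ∉ l) :
    l.flatMap (fun j => L j ++ Function.update S i A j) = l.flatMap (fun j => L j ++ S j) := by
  induction l with
  | nil => rfl
  | cons a l ih =>
    rw [List.flatMap_cons, List.flatMap_cons, ih (fun hm => h (List.mem_cons_of_mem _ hm)),
      Function.update_of_ne (fun he : a = i => h (by rw [he]; exact List.mem_cons_self))]

/-- selected places on the left -/
theorem sel_l (S L : ℕ → List ℕ) (p : ℕ → Bool) : ∀ τ : List ℕ, τ.Nodup →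
    ∃ (S' : ℕ → List ℕ) (R : List ℕ), τ.flatMap (fun i => S i ++ L i) =
      (τ.filter p).flatMap (fun i => S' i ++ L i) ++ R := by
  intro τ
  induction τ with
  | nil =>
    intro _
    exact ⟨S, [], rfl⟩
  | cons i τ ih =>
    intro hn
    obtain ⟨S', R, h⟩ := ih (List.nodup_cons.1 hn).2
    have hi : i ∉ τ := (List.nodup_cons.1 hn).1
    by_cases hp : p i = true
    · refine ⟨Function.update S' i (S i), R, ?_⟩
      rw [List.filter_cons_of_pos hp, List.flatMap_cons, List.flatMap_cons,
        flatMap_update S' L i (S i) (fun hm => hi (List.mem_filter.1 hm).1),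
        Function.update_self, h]
      simp only [List.append_assoc]
    · rw [List.filter_cons_of_neg hp, List.flatMap_cons, h]
      rcases hf : τ.filter p with _ | ⟨j, τ'⟩
      · exact ⟨S', S i ++ L i ++ R, rfl⟩
      · have hnd : (j :: τ').Nodup := by
          rw [← hf]
          exact (List.nodup_cons.1 hn).2.filter _
        refine ⟨Function.update S' j (S i ++ L i ++ S' j), R, ?_⟩
        rw [List.flatMap_cons, List.flatMap_cons,
          flatMap_update S' L j _ (List.nodup_cons.1 hnd).1, Function.update_self]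
        simp only [List.append_assoc]

/-- selected places on the right -/
theorem sel_r (S L : ℕ → List ℕ) (p : ℕ → Bool) : ∀ τ : List ℕ, τ.Nodup →
    ∃ (S' : ℕ → List ℕ) (R : List ℕ), τ.flatMap (fun i => L i ++ S i) =
      R ++ (τ.filter p).flatMap (fun i => L i ++ S' i) := by
  intro τ
  induction τ with
  | nil =>
    intro _
    exact ⟨S, [], rfl⟩
  | cons i τ ih =>
    intro hn
    obtain ⟨S', R, h⟩ := ih (List.nodup_cons.1 hn).2
    have hi : i ∉ τ := (List.nodup_cons.1 hn).1
    by_cases hp : p i = true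
    · refine ⟨Function.update S' i (S i ++ R), [], ?_⟩
      rw [List.filter_cons_of_pos hp, List.flatMap_cons, List.flatMap_cons,
        flatMap_update' S' L i _ (fun hm => hi (List.mem_filter.1 hm).1),
        Function.update_self, h]
      simp only [List.append_assoc, List.nil_append]
    · refine ⟨S', L i ++ S i ++ R, ?_⟩
      rw [List.filter_cons_of_neg hp, List.flatMap_cons, h]
      simp only [List.append_assoc]

theorem flatMap_fix (f : ℕ → List ℕ) (l : List ℕ) (h : ∀ c ∈ l, f c = [c]) :
    l.flatMap f = l := by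
  induction l with
  | nil => rfl
  | cons a l ih =>
    rw [List.flatMap_cons, h a (List.mem_cons_self),
      ih (fun c hc => h c (List.mem_cons_of_mem _ hc))]
    rfl

/-- the substitution -/
def cf (w a b w' : List ℕ) (T : ℕ → List ℕ) (c : ℕ) : List ℕ :=
  if c = 2 then w ++ 2 :: a else if c = 5 then b ++ 5 :: w' else
    if c % 3 = 2 then T ((c - 8) / 3) else [c]

theorem cf_fix (w a b w' : List ℕ) (T : ℕ → List ℕ) {c : ℕ} (h : c % 3 ≠ 2) :
    cf w a b w' T c = [c] := by
  unfold cf
  rw [if_neg (by rintro rfl; exact h rfl), if_neg (by rintro rfl; exact h rfl), if_neg h]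

theorem cf_sep (w a b w' : List ℕ) (T : ℕ → List ℕ) (e : ℕ) :
    cf w a b w' T (3 * e + 8) = T e := by
  unfold cf
  rw [if_neg (by omega), if_neg (by omega), if_pos (by omega)]
  rw [show (3 * e + 8 - 8) / 3 = e by omega]

theorem ctx : CtxStmt := by
  intro N S hW P Q φ L L' a b hn hL h
  have hnP : P.Nodup := (List.nodup_append.1 hn).1
  have hnQ : Q.Nodup := (List.nodup_append.1 hn).2.1
  have hdis : ∀ e ∈ Q, e ∉ P := by
    intro e hQ hP
    exact (List.nodup_append.1 hn).2.2 e hP e hQ rfl
  obtain ⟨t, w, hw⟩ := sel_l (fun e => [3 * e + 8]) (fun e => [3 * e + 1]) φ P hnP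
  obtain ⟨t', w', hw'⟩ := sel_r (fun e => [3 * e + 8]) (fun e => [3 * e + 1]) φ Q hnQ
  have hpl : pl P = (P.filter φ).flatMap (fun e => t e ++ [3 * e + 1]) ++ w := hw
  have hpr : pr Q = w' ++ (Q.filter φ).flatMap (fun e => [3 * e + 1] ++ t' e) := hw'
  obtain ⟨T, hT⟩ : ∃ T : ℕ → List ℕ, T = fun e => if e ∈ P then t e else t' e := ⟨_, rfl⟩
  have e1 : (pl (P.filter φ)).flatMap (cf w a b w' T) =
      (P.filter φ).flatMap (fun e => t e ++ [3 * e + 1]) := by
    unfold pl
    rw [List.flatMap_assoc]
    apply List.flatMap_congr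
    intro e he
    have heP : e ∈ P := (List.mem_filter.1 he).1
    rw [List.flatMap_cons, List.flatMap_cons, List.flatMap_nil, List.append_nil, cf_sep,
      cf_fix w a b w' T (show (3 * e + 1) % 3 ≠ 2 by omega), hT]
    simp only [if_pos heP]
  have e2 : (pr (Q.filter φ)).flatMap (cf w a b w' T) =
      (Q.filter φ).flatMap (fun e => [3 * e + 1] ++ t' e) := by
    unfold pr
    rw [List.flatMap_assoc]
    apply List.flatMap_congr
    intro e he
    have heP : e ∉ P := hdis e (List.mem_filter.1 he).1
    rw [List.flatMap_cons, List.flatMap_cons, List.flatMap_nil, List.append_nil, cf_sep,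
      cf_fix w a b w' T (show (3 * e + 1) % 3 ≠ 2 by omega), hT]
    simp only [if_neg heP]
  have key : ∀ M : List ℕ, (∀ c ∈ M, c % 3 ≠ 2) →
      (W (P.filter φ) (Q.filter φ) M).flatMap (cf w a b w' T) = W P Q (a ++ (M ++ b)) := by
    intro M hM
    unfold W
    rw [List.flatMap_append, List.flatMap_cons, List.flatMap_append, List.flatMap_cons, e1, e2,
      flatMap_fix _ M (fun c hc => cf_fix w a b w' T (hM c hc)), hpl, hpr]
    have h2 : cf w a b w' T 2 = w ++ 2 :: a := rfl
    have h5 : cf w a b w' T 5 = b ++ 5 :: w' := rfl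
    rw [h2, h5]
    simp only [List.append_assoc, List.cons_append]
  rw [← key L (fun c hc => hL c (List.mem_append_left _ hc)),
    ← key L' (fun c hc => hL c (List.mem_append_right _ hc))]
  refine hW.sub _ ?_ h
  intro c hc x hx
  rw [cf_fix w a b w' T (by omega)] at hx
  rw [List.mem_singleton.1 hx]
  exact hc

end Pool.Agent.MWV.H39
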