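import Pool.Agent.MWV.Stmts

/-! # Row IBM of squad MWV (helper39) -/

set_option autoImplicit false

namespace Pool.Agent.MWV.H39

open Pool.Agent.MWV

theorem im_append (N : ℕ) (f : ℕ → List ℕ) (L L' : List ℕ) :
    im N f (L ++ L') = im N f L ++ im N f L' := by
  unfold im
  rw [List.flatMap_append]

theorem ib_refl (w : List ℕ) : ∀ u : List ℕ, Ib w u u
  | [] => Ib.nil
  | a :: u => Ib.cons a (ib_refl w u)

theorem ib_append {w u v u' v' : List ℕ} (h : Ib w u v) (h' : Ib w u' v') :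
    Ib w (u ++ u') (v ++ v') := by
  induction h with
  | nil => exact h'
  | cons a _ ih => exact Ib.cons a ih
  | ins _ ih =>
    rw [List.append_assoc]
    exact Ib.ins ih

theorem ib_cr (N : ℕ) (f : ℕ → List ℕ) (g : ℕ → Bool) (m d : ℕ) (s1 s2 : List ℕ) : ∀ k : ℕ,
    Ib (im N f (X N m)) (im N f (cr g (s1 ++ s2) d k)) (im N f (cr g (s1 ++ (X N m ++ s2)) d k))
  | 0 => ib_refl _ _
  | k + 1 => by
    have ih := ib_cr N f g m d s1 s2 k
    show Ib (im N f (X N m))
      (im N f (cr g (s1 ++ s2) d k ++ (mk g (k + 1) ++ ((s1 ++ s2) ++ [3 * (d + (k + 1)) + 1]))))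
      (im N f (cr g (s1 ++ (X N m ++ s2)) d k ++
        (mk g (k + 1) ++ ((s1 ++ (X N m ++ s2)) ++ [3 * (d + (k + 1)) + 1]))))
    simp only [im_append, List.append_assoc]
    refine ib_append ih (ib_append (ib_refl _ _) (ib_append (ib_refl _ _) ?_))
    exact Ib.ins (ib_refl _ _)

theorem ibm : IbmStmt := by
  intro N f g m k d s1 s2 a b
  rw [im_append, im_append, im_append, im_append]
  exact ib_append (ib_refl _ _) (ib_append (ib_cr N f g m d s1 s2 k) (ib_refl _ _))

end Pool.Agent.MWV.H39
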